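import Mathlib
import Pool.Agent.R2.Util
import Pool.Agent.R2.MultKey

/-!
# Lower order term for the maximum multiplicity of a graph eigenvalue (MP_4bb7d7_co, Q1)
-/

set_option autoImplicit false

open Finset Polynomial Pool.Agent.R2.Util

namespace Pool.Agent.Results.MP_4bb7d7_co.PositiveTrace

/-- the adjacency matrix over a ring -/
noncomputable def adj (R : Type) [Zero R] [One R] {n : ℕ} (G : SimpleGraph (Fin n)) :
    Matrix (Fin n) (Fin n) R :=
  Matrix.of fun u v => open Classical in if G.Adj u v then 1 else 0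

/-- the (geometric) multiplicity of `lam` as an eigenvalue of `G` -/
noncomputable def mult {n : ℕ} (G : SimpleGraph (Fin n)) (lam : ℝ) : ℕ :=
  Module.finrank ℝ (Module.End.eigenspace (Matrix.toLin' (adj ℝ G)) lam)

/-- the maximum multiplicity of `lam` as an eigenvalue of a graph on `n` vertices -/
noncomputable def Es (n : ℕ) (lam : ℝ) : ℕ :=
  sSup (Set.range fun G : SimpleGraph (Fin n) => mult G lam)

theorem adj_herm {n : ℕ} (G : SimpleGraph (Fin n)) : (adj ℝ G).IsHermitian := by
  ext u v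
  simp only [adj, Matrix.conjTranspose_apply, Matrix.of_apply, star_trivial]
  by_cases h : G.Adj u v
  · rw [if_pos h, if_pos h.symm]
  · rw [if_neg h, if_neg (fun h' => h h'.symm)]

theorem adj_01 {n : ℕ} (G : SimpleGraph (Fin n)) (u v : Fin n) :
    adj ℝ G u v = 0 ∨ adj ℝ G u v = 1 := by
  simp only [adj, Matrix.of_apply]
  by_cases h : G.Adj u v
  · right; rw [if_pos h]
  · left; rw [if_neg h]

theorem adj_diag {n : ℕ} (G : SimpleGraph (Fin n)) (u : Fin n) : adj ℝ G u u = 0 := by
  simp only [adj, Matrix.of_apply]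
  rw [if_neg (G.loopless.irrefl u)]

theorem adj_map {n : ℕ} (G : SimpleGraph (Fin n)) :
    adj ℝ G = (adj ℚ G).map (algebraMap ℚ ℝ) := by
  ext u v
  simp only [adj, Matrix.of_apply, Matrix.map_apply]
  by_cases h : G.Adj u v
  · rw [if_pos h, if_pos h]; simp
  · rw [if_neg h, if_neg h]; simp

/-- the conjugates of an algebraic number have the same multiplicity as roots of a rational
polynomial -/
theorem exists_mult (p q : ℚ[X]) (hp : Irreducible p) (hq : q ≠ 0) :
    ∃ m : ℕ, (p.map (algebraMap ℚ ℝ)) ^ m ∣ q.map (algebraMap ℚ ℝ) ∧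
      ∀ μ ∈ (p.map (algebraMap ℚ ℝ)).roots, (q.map (algebraMap ℚ ℝ)).rootMultiplicity μ = m := by
  have hfin : FiniteMultiplicity p q := FiniteMultiplicity.of_not_isUnit hp.not_isUnit hq
  obtain ⟨g, hg, hpg⟩ := hfin.exists_eq_pow_mul_and_not_dvd
  refine ⟨multiplicity p q, ?_, ?_⟩
  · conv_rhs => rw [hg]
    rw [Polynomial.map_mul, Polynomial.map_pow]
    exact dvd_mul_right _ _
  · intro μ hμ
    have hcop : IsCoprime p g := (hp.coprime_iff_not_dvd).2 hpg
    have hcop' : IsCoprime (p.map (algebraMap ℚ ℝ)) (g.map (algebraMap ℚ ℝ)) :=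
      hcop.map (Polynomial.mapRingHom (algebraMap ℚ ℝ))
    have hp0 : p.map (algebraMap ℚ ℝ) ≠ 0 := by
      rw [Ne, Polynomial.map_eq_zero]; exact hp.ne_zero
    have hq0 : q.map (algebraMap ℚ ℝ) ≠ 0 := by
      rw [Ne, Polynomial.map_eq_zero]; exact hq
    have hroot : (p.map (algebraMap ℚ ℝ)).IsRoot μ := (Polynomial.mem_roots hp0).1 hμ
    have hgnr : ¬ (g.map (algebraMap ℚ ℝ)).IsRoot μ := by
      intro h
      obtain ⟨a, b, hab⟩ := hcop'
      have := congrArg (Polynomial.eval μ) hab
      rw [Polynomial.eval_add, Polynomial.eval_mul, Polynomial.eval_mul, hroot.eq_zero,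
        h.eq_zero] at this
      simp at this
    have h1 : q.map (algebraMap ℚ ℝ)
        = (p.map (algebraMap ℚ ℝ)) ^ (multiplicity p q) * g.map (algebraMap ℚ ℝ) := by
      conv_lhs => rw [hg]
      rw [Polynomial.map_mul, Polynomial.map_pow]
    rw [h1] at hq0
    rw [h1, Polynomial.rootMultiplicity_mul hq0, Polynomial.rootMultiplicity_eq_zero hgnr,
      add_zero, ← Polynomial.count_roots, Polynomial.roots_pow, Multiset.count_nsmul]
    have hsep : (p.map (algebraMap ℚ ℝ)).Separable := hp.separable.map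
    have hnd := Polynomial.nodup_roots hsep
    rw [Multiset.count_eq_one_of_mem hnd hμ, mul_one]

theorem elem_bound (r m d L T n : ℝ) (hr : 0 ≤ r) (hm : 0 < m) (hd : 1 ≤ d) (hL : 0 < L)
    (hT : 0 < T) (hn : n = r + d * m) (hn1 : 1 ≤ n)
    (hkey : (m * T) ^ 2 ≤ (r ^ 2 + r) * ((1 + L) ^ 2 * ((d * m) * L ^ 2))) :
    m ≤ n / d - (T ^ 2 / (T ^ 2 + 2 * (d ^ 2 * L ^ 2 * (1 + L) ^ 2))) / d * Real.sqrt n := by
  set B : ℝ := d ^ 2 * L ^ 2 * (1 + L) ^ 2 with hB
  have hBpos : 0 < B := by positivity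
  set c : ℝ := T ^ 2 / (T ^ 2 + 2 * B) with hc
  have hTT : 0 < T ^ 2 := by positivity
  have hc0 : 0 < c := by positivity
  have hc1 : c ≤ 1 := by
    rw [hc, div_le_one (by positivity)]; linarith
  have hcB : c * (T ^ 2 + 2 * B) = T ^ 2 := by
    rw [hc]; field_simp
  -- the key inequality in the form `(n - r) T² ≤ (r² + r) B`
  have h1 : (n - r) * T ^ 2 ≤ (r ^ 2 + r) * B := by
    have e1 : (n - r) = d * m := by linarith
    rw [e1]
    have h2 : m * (m * T ^ 2) ≤ m * ((r ^ 2 + r) * ((1 + L) ^ 2 * (d * L ^ 2))) := by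
      nlinarith
    have h3 := le_of_mul_le_mul_left h2 hm
    have h4 : d * (m * T ^ 2) ≤ d * ((r ^ 2 + r) * ((1 + L) ^ 2 * (d * L ^ 2))) :=
      mul_le_mul_of_nonneg_left h3 (by linarith)
    calc d * m * T ^ 2 = d * (m * T ^ 2) := by ring
      _ ≤ _ := h4
      _ = _ := by rw [hB]; ring
  have hs : 0 ≤ Real.sqrt n := Real.sqrt_nonneg n
  have hs1 : 1 ≤ Real.sqrt n := by
    rw [Real.one_le_sqrt]; exact hn1
  have hs2 : Real.sqrt n ^ 2 = n := Real.sq_sqrt (by linarith)
  have hr2 : c * Real.sqrt n ≤ r := by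
    by_contra hlt
    push Not at hlt
    set s := Real.sqrt n with hsd
    have g1 : r ^ 2 ≤ c ^ 2 * s ^ 2 := by nlinarith
    have g2 : r ^ 2 + r < c ^ 2 * s ^ 2 + c * s := by linarith
    have g3 : c ^ 2 * s ^ 2 + c * s ≤ 2 * c * s ^ 2 := by
      have : c ^ 2 * s ^ 2 ≤ c * s ^ 2 := by
        apply mul_le_mul_of_nonneg_right _ (sq_nonneg _)
        nlinarith
      have : c * s ≤ c * s ^ 2 := by
        apply mul_le_mul_of_nonneg_left _ hc0.le
        nlinarith
      linarith
    have g4 : (r ^ 2 + r) * B < 2 * c * s ^ 2 * B :=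
      mul_lt_mul_of_pos_right (by linarith) hBpos
    have g5 : r ≤ c * s ^ 2 := by
      have : c * s ≤ c * s ^ 2 := by
        apply mul_le_mul_of_nonneg_left _ hc0.le
        nlinarith
      linarith
    have g6 : (s ^ 2 - c * s ^ 2) * T ^ 2 ≤ (n - r) * T ^ 2 := by
      apply mul_le_mul_of_nonneg_right _ hTT.le
      rw [hs2] at g5 ⊢
      linarith
    have g7 : s ^ 2 * T ^ 2 < s ^ 2 * (c * (T ^ 2 + 2 * B)) := by
      nlinarith
    rw [hcB] at g7
    exact lt_irrefl _ g7
  have h5 : m = (n - r) / d := by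
    rw [hn]; field_simp; ring
  rw [h5]
  have h6 : c / d * Real.sqrt n = (c * Real.sqrt n) / d := by ring
  rw [h6, ← sub_div]
  apply div_le_div_of_nonneg_right _ (by linarith)
  linarith

theorem main (lam : ℝ) (hint : IsIntegral ℚ lam) (htr : (minpoly ℚ lam).nextCoeff < 0) :
    ∃ c : ℝ, 0 < c ∧ ∀ n : ℕ, 1 ≤ n → ∀ G : SimpleGraph (Fin n),
      (mult G lam : ℝ) ≤ n / (minpoly ℚ lam).natDegree - c * Real.sqrt n := by
  set p : ℚ[X] := minpoly ℚ lam with hp
  have hirr : Irreducible p := minpoly.irreducible hint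
  have hmon : p.Monic := minpoly.monic hint
  set P : ℝ[X] := p.map (algebraMap ℚ ℝ) with hP
  have hPmon : P.Monic := hmon.map _
  have hP0 : P ≠ 0 := hPmon.ne_zero
  set T : ℝ := -((p.nextCoeff : ℚ) : ℝ) with hT
  have hTpos : 0 < T := by
    rw [hT, neg_pos]; exact_mod_cast htr
  set L : ℝ := 1 + (P.roots.map fun x => |x|).sum with hL
  have hLroots : ∀ x ∈ P.roots, |x| ≤ L := by
    intro x hx
    have h1 : |x| ≤ (P.roots.map fun x => |x|).sum := by
      apply Multiset.single_le_sum _ _ (Multiset.mem_map_of_mem _ hx)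
      intro y hy
      obtain ⟨z, _, rfl⟩ := Multiset.mem_map.1 hy
      exact abs_nonneg z
    linarith
  have hLpos : 0 < L := by
    have : 0 ≤ (P.roots.map fun x => |x|).sum := by
      apply Multiset.sum_nonneg
      intro y hy
      obtain ⟨z, _, rfl⟩ := Multiset.mem_map.1 hy
      exact abs_nonneg z
    linarith
  have hd1 : 1 ≤ p.natDegree := by
    have := hirr.natDegree_pos
    omega
  have hd1' : (1 : ℝ) ≤ p.natDegree := by exact_mod_cast hd1
  refine ⟨T ^ 2 / (T ^ 2 + 2 * ((p.natDegree : ℝ) ^ 2 * L ^ 2 * (1 + L) ^ 2)) / p.natDegree,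
    by positivity, ?_⟩
  intro n hn G
  have hn' : (1 : ℝ) ≤ n := by exact_mod_cast hn
  have hroot : P.IsRoot lam := by
    have : Polynomial.aeval lam p = 0 := minpoly.aeval ℚ lam
    rw [Polynomial.IsRoot, hP, Polynomial.eval_map_algebraMap, this]
  have hlam : lam ∈ P.roots := (Polynomial.mem_roots hP0).2 hroot
  set q : ℚ[X] := (adj ℚ G).charpoly with hq
  have hq0 : q ≠ 0 := (Matrix.charpoly_monic _).ne_zero
  have hA := adj_herm G
  have hqmap : (adj ℝ G).charpoly = q.map (algebraMap ℚ ℝ) := by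
    rw [adj_map, Matrix.charpoly_map]
  obtain ⟨m, hmdvd, hm⟩ := exists_mult p q hirr hq0
  have hcard : ∀ μ ∈ P.roots, (univ.filter fun i => hA.eigenvalues i = μ).card = m := by
    intro μ hμ
    rw [← count_roots hA μ, hqmap, hm μ hμ]
  have hmult : mult G lam = m := by
    rw [mult, finrank_eigenspace hA lam, hcard lam hlam]
  rw [hmult]
  rcases Nat.eq_zero_or_pos m with hm0 | hmpos
  · rw [hm0]
    have hc1 : T ^ 2 / (T ^ 2 + 2 * ((p.natDegree : ℝ) ^ 2 * L ^ 2 * (1 + L) ^ 2)) ≤ 1 := by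
      rw [div_le_one (by positivity)]
      have : 0 ≤ 2 * ((p.natDegree : ℝ) ^ 2 * L ^ 2 * (1 + L) ^ 2) := by positivity
      linarith
    have hsn : Real.sqrt n ≤ n := by
      rw [Real.sqrt_le_left (by linarith)]
      nlinarith
    have h1 : T ^ 2 / (T ^ 2 + 2 * ((p.natDegree : ℝ) ^ 2 * L ^ 2 * (1 + L) ^ 2)) / p.natDegree
        * Real.sqrt n ≤ 1 / p.natDegree * n := by
      apply mul_le_mul _ hsn (Real.sqrt_nonneg _) (by positivity)
      exact div_le_div_of_nonneg_right hc1 (by linarith)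
    have h2 : 1 / (p.natDegree : ℝ) * n = n / p.natDegree := by ring
    push_cast
    linarith
  · -- the roots of `P`
    have hsplit : P.Splits := by
      apply Polynomial.Splits.of_dvd hA.splits_charpoly
        (Matrix.charpoly_monic _).ne_zero
      rw [hqmap]
      exact (dvd_pow_self P (by omega)).trans hmdvd
    have hdeg : P.roots.card = p.natDegree := by
      rw [← hsplit.natDegree_eq_card_roots, hP, Polynomial.natDegree_map]
    have hnd : P.roots.Nodup := Polynomial.nodup_roots (hirr.separable.map)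
    have hsum : P.roots.sum = T := by
      have h1 := hsplit.nextCoeff_eq_neg_sum_roots_of_monic hPmon
      have h2 : P.nextCoeff = ((p.nextCoeff : ℚ) : ℝ) := by
        rw [hP, Polynomial.nextCoeff_map (algebraMap ℚ ℝ).injective]
        rfl
      rw [h2] at h1
      rw [hT, h1, neg_neg]
    set I : Finset (Fin n) := univ.filter fun i => hA.eigenvalues i ∈ P.roots.toFinset with hI
    have hmaps : ∀ i ∈ I, hA.eigenvalues i ∈ P.roots.toFinset := by
      intro i hi
      exact (Finset.mem_filter.1 hi).2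
    have hfib : ∀ μ ∈ P.roots.toFinset, (I.filter fun i => hA.eigenvalues i = μ)
        = univ.filter fun i => hA.eigenvalues i = μ := by
      intro μ hμ
      ext i
      simp only [hI, Finset.mem_filter, Finset.mem_univ, true_and]
      constructor
      · exact fun h => h.2
      · intro h
        exact ⟨h ▸ hμ, h⟩
    have hIcard : I.card = p.natDegree * m := by
      rw [Finset.card_eq_sum_card_fiberwise hmaps]
      have : ∀ μ ∈ P.roots.toFinset, (I.filter fun i => hA.eigenvalues i = μ).card = m := by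
        intro μ hμ
        rw [hfib μ hμ, hcard μ (Multiset.mem_toFinset.1 hμ)]
      rw [Finset.sum_congr rfl this, Finset.sum_const, smul_eq_mul,
        Multiset.toFinset_card_of_nodup hnd, hdeg]
    have hIsum : ∑ i ∈ I, hA.eigenvalues i = m * T := by
      rw [← Finset.sum_fiberwise_of_maps_to hmaps]
      have : ∀ μ ∈ P.roots.toFinset,
          ∑ i ∈ I.filter (fun i => hA.eigenvalues i = μ), hA.eigenvalues i = m * μ := by
        intro μ hμ
        have e1 : ∀ i ∈ I.filter (fun i => hA.eigenvalues i = μ), hA.eigenvalues i = μ := by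
          intro i hi
          exact (Finset.mem_filter.1 hi).2
        rw [Finset.sum_congr rfl e1, Finset.sum_const, nsmul_eq_mul, hfib μ hμ,
          hcard μ (Multiset.mem_toFinset.1 hμ)]
      rw [Finset.sum_congr rfl this, ← Finset.mul_sum, ← hsum]
      congr 1
      have h3 : P.roots.toFinset.val = P.roots := by
        rw [Multiset.toFinset_val, hnd.dedup]
      rw [Finset.sum_eq_multiset_sum, h3, Multiset.map_id']
    have hkey := Pool.Agent.R2.MultKey.key hA (adj_01 G) (adj_diag G) I L hLpos.le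
      (fun i hi => hLroots _ (Multiset.mem_toFinset.1 (hmaps i hi)))
      (by rw [hIsum]; positivity)
    rw [hIsum, hIcard] at hkey
    have hcompl : I.card + Iᶜ.card = n := by
      rw [Finset.card_add_card_compl, Fintype.card_fin]
    rw [hIcard] at hcompl
    have hcompl' : (n : ℝ) = (Iᶜ.card : ℝ) + (p.natDegree : ℝ) * m := by
      have : ((p.natDegree * m + Iᶜ.card : ℕ) : ℝ) = n := by rw [hcompl]
      push_cast at this
      linarith
    have hmpos' : (0 : ℝ) < m := by exact_mod_cast hmpos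
    push_cast at hkey
    exact elem_bound (Iᶜ.card : ℝ) m p.natDegree L T n (by positivity) hmpos' hd1' hLpos hTpos
      hcompl' hn' hkey

theorem Es_le (n : ℕ) (lam B : ℝ) (h : ∀ G : SimpleGraph (Fin n), (mult G lam : ℝ) ≤ B) :
    (Es n lam : ℝ) ≤ B := by
  have hmem : sSup (Set.range fun G : SimpleGraph (Fin n) => mult G lam)
      ∈ Set.range fun G : SimpleGraph (Fin n) => mult G lam := by
    apply Nat.sSup_mem (Set.range_nonempty _)
    exact (Set.finite_range _).bddAbove
  obtain ⟨G, hG⟩ := hmem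
  rw [Es, ← hG]
  exact h G

/-- the adjacency matrix of the path on four vertices has the golden ratio as an eigenvalue -/
theorem golden_mult : 0 < mult (SimpleGraph.pathGraph 4) Real.goldenRatio := by
  rw [mult, Module.finrank_pos_iff_exists_ne_zero]
  have hsq := Real.goldenRatio_sq
  refine ⟨⟨![1, Real.goldenRatio, Real.goldenRatio, 1], ?_⟩, ?_⟩
  · rw [Module.End.mem_eigenspace_iff, Matrix.toLin'_apply]
    ext i
    fin_cases i <;>
      simp [Matrix.mulVec, dotProduct, Fin.sum_univ_four, adj, SimpleGraph.pathGraph_adj] <;>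
      nlinarith
  · intro h
    have h1 := congrArg Subtype.val h
    have h2 := congrFun h1 0
    simp at h2

theorem golden_int : IsIntegral ℤ Real.goldenRatio := by
  refine ⟨X ^ 2 - X - 1, ?_, ?_⟩
  · monicity!
  · have := Real.goldenRatio_sq
    simp [Polynomial.eval₂_sub]

theorem golden_minpoly : minpoly ℚ Real.goldenRatio = X ^ 2 - X - 1 := by
  have hint : IsIntegral ℚ Real.goldenRatio := golden_int.tower_top
  have hmon : (X ^ 2 - X - 1 : ℚ[X]).Monic := by monicity!
  have hdeg : (X ^ 2 - X - 1 : ℚ[X]).natDegree = 2 := by compute_degree!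
  have hdvd : minpoly ℚ Real.goldenRatio ∣ X ^ 2 - X - 1 := by
    apply minpoly.dvd
    have := Real.goldenRatio_sq
    simp [this]
  have h2 : 2 ≤ (minpoly ℚ Real.goldenRatio).natDegree := by
    rw [minpoly.two_le_natDegree_iff hint]
    rintro ⟨x, hx⟩
    exact Real.goldenRatio_irrational ⟨x, hx⟩
  symm
  apply Polynomial.eq_of_monic_of_dvd_of_natDegree_le (minpoly.monic hint) hmon hdvd
  rw [hdeg]; exact h2

/-- **Q1 of MP_4bb7d7_co: yes.** For every real algebraic integer `lam` of degree `d ≥ 2` with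
positive trace there is `c > 0` with `E_s(n, lam) ≤ n / d - c √n` for all `n ≥ 1`; in particular
this is so for the golden ratio, which is an eigenvalue of the path on four vertices. -/
theorem result :
    (∀ lam : ℝ, IsIntegral ℤ lam → 2 ≤ (minpoly ℚ lam).natDegree →
      0 < -(minpoly ℚ lam).nextCoeff →
      ∃ c : ℝ, 0 < c ∧ ∀ n : ℕ, 1 ≤ n →
        (Es n lam : ℝ) ≤ (n : ℝ) / (minpoly ℚ lam).natDegree - c * Real.sqrt n) ∧
    ∃ lam : ℝ, IsIntegral ℤ lam ∧ 2 ≤ (minpoly ℚ lam).natDegree ∧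
      (∃ (k : ℕ) (G : SimpleGraph (Fin k)), 0 < mult G lam) ∧
      ∃ c : ℝ, 0 < c ∧ ∃ n₀ : ℕ, ∀ n : ℕ, n₀ ≤ n →
        (Es n lam : ℝ) ≤ (n : ℝ) / (minpoly ℚ lam).natDegree - c * Real.sqrt n := by
  have hgen : ∀ lam : ℝ, IsIntegral ℤ lam → 2 ≤ (minpoly ℚ lam).natDegree →
      0 < -(minpoly ℚ lam).nextCoeff →
      ∃ c : ℝ, 0 < c ∧ ∀ n : ℕ, 1 ≤ n →
        (Es n lam : ℝ) ≤ (n : ℝ) / (minpoly ℚ lam).natDegree - c * Real.sqrt n := by
    intro lam hint _ htr
    obtain ⟨c, hc, h⟩ := main lam hint.tower_top (by linarith)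
    exact ⟨c, hc, fun n hn => Es_le n lam _ (h n hn)⟩
  refine ⟨hgen, Real.goldenRatio, golden_int, ?_, ⟨4, _, golden_mult⟩, ?_⟩
  · rw [golden_minpoly]
    apply le_of_eq; symm; compute_degree!
  · obtain ⟨c, hc, h⟩ := hgen Real.goldenRatio golden_int
      (by rw [golden_minpoly]; apply le_of_eq; symm; compute_degree!)
      (by
        rw [golden_minpoly]
        have hd : (X ^ 2 - X - 1 : ℚ[X]).natDegree = 2 := by compute_degree!
        rw [Polynomial.nextCoeff_of_natDegree_pos (by rw [hd]; norm_num), hd]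
        simp [Polynomial.coeff_X, Polynomial.coeff_one])
    exact ⟨c, hc, 1, fun n hn => h n hn⟩

end Pool.Agent.Results.MP_4bb7d7_co.PositiveTrace
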